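import Pool.Agent.Lib_helper42.FP.Blow
import Pool.Agent.Lib_helper47.TA.F.K4B

/-!
# The mean of the `K_4` with classes `0, 0, 1, 1` modulo `3` is zero
-/

set_option autoImplicit false

namespace Pool.Agent.HOM

open Filter Topology
open scoped BigOperators ComplexConjugate

/-- `CI D (2 n)` on the multiples of `3` -/
noncomputable def g0 (D : Set ℕ) (n : ℤ) : ℝ := if n % 3 = 0 then CI D (2 * n) else 0

/-- `CI D (2 n)` on the class of `1` modulo `3` -/
noncomputable def g1 (D : Set ℕ) (n : ℤ) : ℝ := if n % 3 = 1 then CI D (2 * n) else 0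

/-- `CI D (2 n)` on the classes of `0` and `1` modulo `3` -/
noncomputable def g01 (D : Set ℕ) (n : ℤ) : ℝ := if n % 3 ≠ 2 then CI D (2 * n) else 0

/-! ### the mean over one class modulo `3` -/

theorem mx_ind (m : Mn ℤ) (hm : m.Inv) (r : ℤ) (hr : 0 ≤ r ∧ r < 3) :
    m.L (fun n : ℤ => if n % 3 = r then (1 : ℝ) else 0) = 1 / 3 := by
  have hb : ∀ s : ℤ, Bd (fun n : ℤ => if n % 3 = s then (1 : ℝ) else 0) := fun s =>
    Bd.of_mem_Icc (a := 0) (b := 1) fun n => by split_ifs <;> norm_num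
  have hs : ∀ s : ℤ, 0 ≤ s → s < 2 → m.L (fun n : ℤ => if n % 3 = s then (1 : ℝ) else 0) =
      m.L (fun n : ℤ => if n % 3 = s + 1 then (1 : ℝ) else 0) := by
    intro s h0 h2
    rw [← hm _ (hb (s + 1))]
    congr 1
    funext n
    have h : (n + 1) % 3 = s + 1 ↔ n % 3 = s := by omega
    simp only [h]
  have h01 := hs 0 le_rfl (by norm_num)
  have h12 := hs 1 (by norm_num) (by norm_num)
  rw [show (0 : ℤ) + 1 = 1 from rfl] at h01
  rw [show (1 : ℤ) + 1 = 2 from rfl] at h12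
  have hsum : m.L (fun n : ℤ => if n % 3 = 0 then (1 : ℝ) else 0) +
      m.L (fun n : ℤ => if n % 3 = 1 then (1 : ℝ) else 0) +
      m.L (fun n : ℤ => if n % 3 = 2 then (1 : ℝ) else 0) = 1 := by
    have e : ((fun n : ℤ => if n % 3 = 0 then (1 : ℝ) else 0) +
        (fun n : ℤ => if n % 3 = 1 then (1 : ℝ) else 0) +
        fun n : ℤ => if n % 3 = 2 then (1 : ℝ) else 0) = fun _ => (1 : ℝ) := by
      funext n
      simp only [Pi.add_apply]
      have h : n % 3 = 0 ∨ n % 3 = 1 ∨ n % 3 = 2 := by omega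
      rcases h with h | h | h <;> rw [h] <;> norm_num
    rw [← map_add, ← map_add, e, m.one]
  have hr' : r = 0 ∨ r = 1 ∨ r = 2 := by omega
  rcases hr' with rfl | rfl | rfl <;> linarith

/-- The mean over the class of `r` modulo `3`. -/
noncomputable def cl3 (m : Mn ℤ) (hm : m.Inv) (r : ℤ) (hr : 0 ≤ r ∧ r < 3) : Mn ℤ where
  L :=
    { toFun := fun g => 3 * m.L (fun n => if n % 3 = r then g (n / 3) else 0)
      map_add' := fun f g => by
        rw [← mul_add, ← map_add]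
        congr 2
        funext n
        simp only [Pi.add_apply]
        split_ifs <;> simp
      map_smul' := fun c f => by
        have h : (fun n : ℤ => if n % 3 = r then (c • f) (n / 3) else 0) =
            c • fun n : ℤ => if n % 3 = r then f (n / 3) else 0 := by
          funext n
          simp only [Pi.smul_apply, smul_eq_mul]
          split_ifs <;> simp
        rw [h, map_smul]
        simp only [smul_eq_mul, RingHom.id_apply]
        ring }
  one := by
    simp only [LinearMap.coe_mk, AddHom.coe_mk]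
    rw [mx_ind m hm r hr]
    norm_num
  nonneg := fun f hf h0 => by
    simp only [LinearMap.coe_mk, AddHom.coe_mk]
    obtain ⟨A, hA⟩ := hf
    refine mul_nonneg (by norm_num) (m.nonneg _ ⟨|A|, fun n => ?_⟩ fun n => ?_)
    · beta_reduce
      split_ifs
      · exact (hA _).trans (le_abs_self A)
      · rw [norm_zero]; exact abs_nonneg A
    · beta_reduce
      split_ifs
      · exact h0 _
      · exact le_rfl

theorem cl3_apply (m : Mn ℤ) (hm : m.Inv) (r : ℤ) (hr : 0 ≤ r ∧ r < 3) (g : ℤ → ℝ) :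
    (cl3 m hm r hr).L g = 3 * m.L (fun n => if n % 3 = r then g (n / 3) else 0) := rfl

theorem cl3_inv (m : Mn ℤ) (hm : m.Inv) (r : ℤ) (hr : 0 ≤ r ∧ r < 3) : (cl3 m hm r hr).Inv := by
  intro f hf
  rw [cl3_apply, cl3_apply]
  congr 1
  obtain ⟨A, hA⟩ := hf
  have hb : Bd (fun n : ℤ => if n % 3 = r then f (n / 3) else 0) := ⟨|A|, fun n => by
    beta_reduce
    split_ifs
    · exact (hA _).trans (le_abs_self A)
    · rw [norm_zero]; exact abs_nonneg A⟩
  rw [← L_shift m hm hb 3]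
  congr 1
  funext n
  have h1 : (n + 3) % 3 = n % 3 := by omega
  have h2 : (n + 3) / 3 = n / 3 + 1 := by omega
  rw [h1, h2]

theorem cl3_eq (m : Mn ℤ) (hm : m.Inv) (r : ℤ) (hr : 0 ≤ r ∧ r < 3) (F : ℤ → ℝ) :
    m.L (fun n => if n % 3 = r then F n else 0) =
      1 / 3 * (cl3 m hm r hr).L (fun x => F (3 * x + r)) := by
  rw [cl3_apply, ← mul_assoc]
  norm_num
  congr 1
  funext n
  by_cases h : n % 3 = r
  · rw [if_pos h, if_pos h]
    congr 1
    omega
  · rw [if_neg h, if_neg h]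

/-! ### four classes modulo `6` -/

theorem mx_adm (k : ℕ) (H : Fin 4 → Finset ℕ) (hc : ∀ i, (H i).card = k)
    (h6 : ∀ i, ∀ u ∈ H i, u % 6 = 0 ∨ u % 6 = 2)
    (hcl : ∀ i, ∀ u ∈ H i, ∀ v ∈ H i, u ≡ v [MOD (4 * k).factorial]) :
    Pool.Agent.Lib_helper23.PG.Admissible (Finset.univ.biUnion H) := by
  classical
  intro p hp
  by_cases hp6 : p = 2 ∨ p = 3
  · refine ⟨1, fun u hu h => ?_⟩
    obtain ⟨i, -, hui⟩ := Finset.mem_biUnion.1 hu
    have h1 := h6 i u hui
    rcases hp6 with rfl | rfl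
    · have h2 : u % 2 = 1 % 2 := h
      omega
    · have h2 : u % 3 = 1 % 3 := h
      omega
  · by_cases hpk : p ≤ 4 * k
    · have h5 : 5 ≤ p := by
        by_contra hlt
        have h2 := hp.two_le
        have h4 : p = 2 ∨ p = 3 ∨ p = 4 := by omega
        rcases h4 with rfl | rfl | rfl
        · exact hp6 (Or.inl rfl)
        · exact hp6 (Or.inr rfl)
        · exact absurd hp (by norm_num)
      have hk : ∀ i, (H i).Nonempty := fun i => by
        rw [← Finset.card_pos, hc i]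
        omega
      choose f hf using hk
      obtain ⟨r, hr, hrn⟩ : ∃ r ∈ Finset.range p, r ∉ (Finset.univ.image fun i => f i % p) := by
        apply Finset.exists_mem_notMem_of_card_lt_card
        refine lt_of_le_of_lt Finset.card_image_le ?_
        rw [Finset.card_univ, Fintype.card_fin, Finset.card_range]
        omega
      refine ⟨r, fun u hu h => hrn ?_⟩
      obtain ⟨i, -, hui⟩ := Finset.mem_biUnion.1 hu
      refine Finset.mem_image.2 ⟨i, Finset.mem_univ _, ?_⟩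
      have h1 : f i ≡ u [MOD p] := (hcl i _ (hf i) u hui).of_dvd ((hp.dvd_factorial).2 hpk)
      have h2 : f i % p = r % p := h1.trans h
      rw [h2, Nat.mod_eq_of_lt (Finset.mem_range.1 hr)]
    · refine Pool.Agent.TA.k4a_large p (4 * k) _ ?_ (not_le.1 hpk)
      refine Finset.card_biUnion_le.trans ?_
      rw [Finset.sum_congr rfl fun i _ => hc i]
      simp

/-- Translation of four bins into the natural numbers. -/
theorem mx_bins (D : Set ℕ) (k : ℕ) (hD : Pool.Agent.Lib_helper23.PG.HitsBins 4 k D)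
    (B : Fin 4 → Finset ℤ) (hBc : ∀ i, (B i).card = k)
    (hB6 : ∀ i, ∀ b ∈ B i, b % 6 = 0 ∨ b % 6 = 2)
    (hBW : ∀ i, ∀ b ∈ B i, ∀ b' ∈ B i, ((4 * k).factorial : ℤ) ∣ b - b')
    (hBd : ∀ i j, i < j → ∀ b ∈ B i, ∀ b' ∈ B j, b ≠ b' ∧ (b - b').natAbs ∉ D) : False := by
  classical
  obtain ⟨S, hS⟩ : ∃ S : ℕ, S = ∑ i, ∑ b ∈ B i, b.natAbs := ⟨_, rfl⟩
  have hSb : ∀ i, ∀ b ∈ B i, b.natAbs ≤ S := by
    intro i b hb
    rw [hS]
    refine (Finset.single_le_sum (f := fun b : ℤ => b.natAbs) (fun _ _ => Nat.zero_le _) hb).trans ?_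
    exact Finset.single_le_sum (f := fun i => ∑ b ∈ B i, b.natAbs) (fun _ _ => Nat.zero_le _)
      (Finset.mem_univ i)
  obtain ⟨t, ht⟩ : ∃ t : ℤ, t = 6 * (S : ℤ) := ⟨_, rfl⟩
  have hnn : ∀ i, ∀ b ∈ B i, 0 ≤ b + t := by
    intro i b hb
    have h1 := hSb i b hb
    omega
  have hcast : ∀ i, ∀ b ∈ B i, (((b + t).toNat : ℕ) : ℤ) = b + t :=
    fun i b hb => Int.toNat_of_nonneg (hnn i b hb)
  obtain ⟨H, hH⟩ : ∃ H : Fin 4 → Finset ℕ, H = fun i => (B i).image fun b => (b + t).toNat :=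
    ⟨_, rfl⟩
  have hHc : ∀ i, (H i).card = k := by
    intro i
    rw [hH]
    simp only
    rw [Finset.card_image_of_injOn, hBc i]
    intro b hb b' hb' h
    have h1 := hcast i b hb
    have h2 := hcast i b' hb'
    simp only at h
    rw [h] at h1
    linarith
  have hdis : ∀ i j, i < j → ∀ a ∈ H i, ∀ c ∈ H j, a ≠ c ∧ ((a : ℤ) - c).natAbs ∉ D := by
    intro i j hij a ha c hc
    rw [hH] at ha hc
    obtain ⟨b, hb, rfl⟩ := Finset.mem_image.1 ha
    obtain ⟨b', hb', rfl⟩ := Finset.mem_image.1 hc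
    have h1 := hBd i j hij b hb b' hb'
    have h2 := hcast i b hb
    have h3 := hcast j b' hb'
    refine ⟨fun h => h1.1 ?_, ?_⟩
    · rw [h] at h2
      linarith
    · rw [h2, h3, show b + t - (b' + t) = b - b' by ring]
      exact h1.2
  obtain ⟨i, j, hij, a, ha, b, hb, hab, hDab⟩ := hD H hHc
    (fun i j hij => by
      rw [Finset.disjoint_left]
      intro a ha hb
      rcases lt_or_gt_of_ne hij with h1 | h1
      · exact (hdis i j h1 a ha a hb).1 rfl
      · exact (hdis j i h1 a hb a ha).1 rfl)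
    (by
      refine mx_adm k H hHc ?_ ?_
      · intro i u hu
        rw [hH] at hu
        obtain ⟨b, hb, rfl⟩ := Finset.mem_image.1 hu
        have h1 := hcast i b hb
        have h2 := hB6 i b hb
        beta_reduce
        omega
      · intro i u hu v hv
        rw [hH] at hu hv
        obtain ⟨b, hb, rfl⟩ := Finset.mem_image.1 hu
        obtain ⟨b', hb', rfl⟩ := Finset.mem_image.1 hv
        have h1 : ((4 * k).factorial : ℤ) ∣
            (((b' + t).toNat : ℕ) : ℤ) - (((b + t).toNat : ℕ) : ℤ) := by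
          rw [hcast i b hb, hcast i b' hb', show b' + t - (b + t) = b' - b by ring]
          exact hBW i b' hb' b hb
        exact (Nat.modEq_iff_dvd).2 h1)
  have h2 : ((b : ℤ) - a).natAbs = b - a := by
    have h1 : (b : ℤ) - a = ((b - a : ℕ) : ℤ) := by
      rw [Nat.cast_sub hab.le]
    rw [h1, Int.natAbs_natCast]
  rcases lt_or_gt_of_ne hij with h3 | h3
  · refine (hdis i j h3 a ha b hb).2 ?_
    rw [← Int.natAbs_neg, neg_sub, h2]
    exact hDab
  · refine (hdis j i h3 b hb a ha).2 ?_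
    rw [h2]
    exact hDab

/-- The mean over the points `6 v, 2 + 6 u, 2 + 6 x`. -/
theorem mx_null (D : Set ℕ) (k : ℕ) (hD : Pool.Agent.Lib_helper23.PG.HitsBins 4 k D)
    (m₁ m₂ m₃ : Mn ℤ) (i₁ : m₁.Inv) (i₂ : m₂.Inv) (i₃ : m₃.Inv) :
    m₃.L (fun v => CI D (0 + 6 * v) * m₂.L (fun u => CI D (2 + 6 * u) *
      CI D (2 + 6 * u - (0 + 6 * v)) * m₁.L (fun x => CI D (2 + 6 * x) *
        CI D (2 + 6 * x - (2 + 6 * u)) * CI D (2 + 6 * x - (0 + 6 * v))))) = 0 := by
  classical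
  by_contra hne
  have hpos : 0 < m₃.L (fun v => CI D (0 + 6 * v) * m₂.L (fun u => CI D (2 + 6 * u) *
      CI D (2 + 6 * u - (0 + 6 * v)) * m₁.L (fun x => CI D (2 + 6 * x) *
        CI D (2 + 6 * x - (2 + 6 * u)) * CI D (2 + 6 * x - (0 + 6 * v))))) := by
    refine lt_of_le_of_ne ?_ (Ne.symm hne)
    exact (nb_L m₃ _ fun v => nb_mul (nb_CI D _) (nb_L m₂ _ fun u => nb_mul (nb_mul
      (nb_CI D _) (nb_CI D _)) (nb_L m₁ _ fun x => nb_mul (nb_mul (nb_CI D _) (nb_CI D _))
        (nb_CI D _)))).1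
  have hW0 : 0 < (4 * k).factorial := Nat.factorial_pos _
  obtain ⟨B, hBc, ⟨h0, h1, h2, h3⟩, hBd⟩ := blowup2 D (k * (4 * k).factorial) (1 : ℤ)
    (by norm_num) 2 2 0 6 6 6 (by norm_num) (by norm_num) (by norm_num) m₁ m₂ m₃ i₁ i₂ i₃ hpos
  have hB6 : ∀ i, ∀ b ∈ B i, b % 6 = 0 ∨ b % 6 = 2 := by
    intro i
    fin_cases i
    · intro b hb
      have h := h0 b hb
      omega
    · intro b hb
      have h := h1 b hb
      omega
    · intro b hb
      have h := h2 b hb
      omega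
    · intro b hb
      have h := h3 b hb
      omega
  choose B' hB' hc' hW' using fun i =>
    Pool.Agent.TA.bins_in_class k (4 * k).factorial hW0 (B i) (hBc i)
  exact mx_bins D k hD B' hc' (fun i b hb => hB6 i b (hB' i hb)) hW'
    (fun i j hij b hb b' hb' => hBd i j hij b (hB' i hb) b' (hB' j hb'))

/-- The mean of the `K_4` with classes `0, 0, 1, 1` modulo `3` is zero. -/
theorem k4null_mixed (D : Set ℕ) (k : ℕ) (hD : Pool.Agent.Lib_helper23.PG.HitsBins 4 k D)
    (m : Mn ℤ) (hm : m.Inv) :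
    T3 m m m 0 0 1 1 (g0 D) (g1 D) (g1 D) (g01 D) (g01 D) (g01 D) = 0 := by
  obtain ⟨M0, hM0⟩ : ∃ M, M = cl3 m hm 0 (by norm_num) := ⟨_, rfl⟩
  obtain ⟨M1, hM1⟩ : ∃ M, M = cl3 m hm 1 (by norm_num) := ⟨_, rfl⟩
  have i0 : M0.Inv := by rw [hM0]; exact cl3_inv _ _ _ _
  have i1 : M1.Inv := by rw [hM1]; exact cl3_inv _ _ _ _
  have key0 : ∀ F : ℤ → ℝ, m.L (fun n => if n % 3 = 0 then F n else 0) =
      1 / 3 * M0.L (fun x => F (3 * x + 0)) := fun F => by rw [hM0]; exact cl3_eq m hm 0 _ F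
  have key1 : ∀ F : ℤ → ℝ, m.L (fun n => if n % 3 = 1 then F n else 0) =
      1 / 3 * M1.L (fun x => F (3 * x + 1)) := fun F => by rw [hM1]; exact cl3_eq m hm 1 _ F
  have e1 : ∀ u v : ℤ, u % 3 = 1 → v % 3 = 0 →
      m.L (fun x => g01 D x * g01 D (x - u) * g01 D (x - v)) =
        1 / 3 * M1.L (fun x => CI D (2 * (3 * x + 1)) * CI D (2 * (3 * x + 1 - u)) *
          CI D (2 * (3 * x + 1 - v))) := by
    intro u v hu hv
    rw [← key1 fun x => CI D (2 * x) * CI D (2 * (x - u)) * CI D (2 * (x - v))]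
    congr 1
    funext x
    unfold g01
    by_cases hx : x % 3 = 1
    · rw [if_pos hx, if_pos (by omega), if_pos (by omega), if_pos (by omega)]
    · rw [if_neg hx]
      by_cases hx2 : x % 3 = 2
      · rw [if_neg (not_not.2 hx2), zero_mul, zero_mul]
      · rw [if_neg (c := (x - u) % 3 ≠ 2) (by omega), mul_zero, zero_mul]
  have e2 : ∀ v : ℤ, v % 3 = 0 → ∀ J : ℤ → ℝ,
      m.L (fun u => g1 D u * g1 D (u - v) * J u) =
        1 / 3 * M1.L (fun u => CI D (2 * (3 * u + 1)) * CI D (2 * (3 * u + 1 - v)) *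
          J (3 * u + 1)) := by
    intro v hv J
    rw [← key1 fun u => CI D (2 * u) * CI D (2 * (u - v)) * J u]
    congr 1
    funext u
    unfold g1
    by_cases hu : u % 3 = 1
    · rw [if_pos hu, if_pos hu, if_pos (by omega)]
    · rw [if_neg hu, if_neg hu, zero_mul, zero_mul]
  have e0 : ∀ J : ℤ → ℝ, m.L (fun v => g0 D v * J v) =
      1 / 3 * M0.L (fun v => CI D (2 * (3 * v + 0)) * J (3 * v + 0)) := by
    intro J
    rw [← key0 fun v => CI D (2 * v) * J v]
    congr 1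
    funext v
    unfold g0
    by_cases hv : v % 3 = 0
    · rw [if_pos hv, if_pos hv]
    · rw [if_neg hv, if_neg hv, zero_mul]
  have hX := mx_null D k hD M1 M1 M0 i1 i1 i0
  have h1 : T3 m m m 0 0 1 1 (g0 D) (g1 D) (g1 D) (g01 D) (g01 D) (g01 D) =
      m.L (fun v => g0 D v * m.L (fun u => g1 D u * g1 D (u - v) *
        m.L (fun x => g01 D x * g01 D (x - u) * g01 D (x - v)))) := by
    unfold T3
    simp only [Nat.cast_one, one_mul, zero_add]
  rw [h1, e0]
  have h2 : (fun v : ℤ => CI D (2 * (3 * v + 0)) * (fun v => m.L (fun u => g1 D u * g1 D (u - v) *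
        m.L (fun x => g01 D x * g01 D (x - u) * g01 D (x - v)))) (3 * v + 0)) =
      fun v : ℤ => 1 / 9 * (CI D (0 + 6 * v) * M1.L (fun u => CI D (2 + 6 * u) *
      CI D (2 + 6 * u - (0 + 6 * v)) * M1.L (fun x => CI D (2 + 6 * x) *
        CI D (2 + 6 * x - (2 + 6 * u)) * CI D (2 + 6 * x - (0 + 6 * v))))) := by
    funext v
    beta_reduce
    have hv : (3 * v + 0) % 3 = 0 := by omega
    rw [e2 _ hv fun u => m.L (fun x => g01 D x * g01 D (x - u) * g01 D (x - (3 * v + 0)))]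
    have h3 : (fun u : ℤ => CI D (2 * (3 * u + 1)) * CI D (2 * (3 * u + 1 - (3 * v + 0))) *
        m.L (fun x => g01 D x * g01 D (x - (3 * u + 1)) * g01 D (x - (3 * v + 0)))) =
        fun u : ℤ => 1 / 3 * (CI D (2 + 6 * u) *
      CI D (2 + 6 * u - (0 + 6 * v)) * M1.L (fun x => CI D (2 + 6 * x) *
        CI D (2 + 6 * x - (2 + 6 * u)) * CI D (2 + 6 * x - (0 + 6 * v)))) := by
      funext u
      rw [e1 (3 * u + 1) (3 * v + 0) (by omega) hv]
      have a1 : 2 * (3 * u + 1) = 2 + 6 * u := by ring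
      have a2 : 2 * (3 * u + 1 - (3 * v + 0)) = 2 + 6 * u - (0 + 6 * v) := by ring
      have a3 : (fun x : ℤ => CI D (2 * (3 * x + 1)) * CI D (2 * (3 * x + 1 - (3 * u + 1))) *
          CI D (2 * (3 * x + 1 - (3 * v + 0)))) = fun x => CI D (2 + 6 * x) *
        CI D (2 + 6 * x - (2 + 6 * u)) * CI D (2 + 6 * x - (0 + 6 * v)) := by
        funext x
        rw [show 2 * (3 * x + 1) = 2 + 6 * x by ring,
          show 2 * (3 * x + 1 - (3 * u + 1)) = 2 + 6 * x - (2 + 6 * u) by ring,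
          show 2 * (3 * x + 1 - (3 * v + 0)) = 2 + 6 * x - (0 + 6 * v) by ring]
      rw [a1, a2, a3]
      ring
    rw [h3, nb_smul, show 2 * (3 * v + 0) = 0 + 6 * v by ring]
    ring
  rw [h2, nb_smul, hX]
  norm_num

end Pool.Agent.HOM
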