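import Pool.Agent.Lib_helper33.HOMF.NB

/-!
# Four bins from a positive mean, with the classes of the bins

The proof is the one of `blowup` (`Lib_helper33.HOMF.NB`); the conclusion names the classes.
-/

set_option autoImplicit false

namespace Pool.Agent.HOM

open Filter Topology
open scoped BigOperators ComplexConjugate

theorem blowup2 (D : Set ℕ) (k : ℕ) (K : ℤ) (hK : 0 < K) (α₁ α₂ α₃ β₁ β₂ β₃ : ℤ) (hβ₁ : 0 < β₁)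
    (hβ₂ : 0 < β₂) (hβ₃ : 0 < β₃) (m₁ m₂ m₃ : Mn ℤ) (i₁ : m₁.Inv) (i₂ : m₂.Inv) (i₃ : m₃.Inv)
    (h : 0 < m₃.L (fun v => CI D (α₃ + β₃ * v) * m₂.L (fun u => CI D (α₂ + β₂ * u) *
      CI D (α₂ + β₂ * u - (α₃ + β₃ * v)) * m₁.L (fun x => CI D (α₁ + β₁ * x) *
        CI D (α₁ + β₁ * x - (α₂ + β₂ * u)) * CI D (α₁ + β₁ * x - (α₃ + β₃ * v)))))) :
    ∃ B : Fin 4 → Finset ℤ, (∀ i, (B i).card = k) ∧
      ((∀ b ∈ B 0, K * β₁ * β₂ * β₃ ∣ b) ∧ (∀ b ∈ B 1, β₃ ∣ b - α₃) ∧ (∀ b ∈ B 2, β₂ ∣ b - α₂) ∧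
        ∀ b ∈ B 3, β₁ ∣ b - α₁) ∧
      ∀ i j, i < j → ∀ b ∈ B i, ∀ b' ∈ B j, b ≠ b' ∧ (b - b').natAbs ∉ D := by
  classical
  rcases Nat.eq_zero_or_pos k with rfl | hk
  · exact ⟨fun _ => ∅, fun _ => rfl, ⟨fun b hb => absurd hb (Finset.notMem_empty b),
      fun b hb => absurd hb (Finset.notMem_empty b), fun b hb => absurd hb (Finset.notMem_empty b),
      fun b hb => absurd hb (Finset.notMem_empty b)⟩,
      fun _ _ _ b hb => absurd hb (Finset.notMem_empty b)⟩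
  set C := CI D with hC
  have hC01 : ∀ v, 0 ≤ C v ∧ C v ≤ 1 := nb_CI D
  -- the function attached to `b`
  set F : ℤ → ℤ × (ℤ × ℤ) → ℝ := fun b p =>
    C (α₃ + β₃ * p.1 - b) * (C (α₂ + β₂ * p.2.1 - b) * C (α₂ + β₂ * p.2.1 - (α₃ + β₃ * p.1)) *
      (C (α₁ + β₁ * p.2.2 - b) * C (α₁ + β₁ * p.2.2 - (α₂ + β₂ * p.2.1)) *
        C (α₁ + β₁ * p.2.2 - (α₃ + β₃ * p.1)))) with hF
  have hF01 : ∀ b p, 0 ≤ F b p ∧ F b p ≤ 1 := fun b p =>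
    nb_mul (hC01 _) (nb_mul (nb_mul (hC01 _) (hC01 _)) (nb_mul (nb_mul (hC01 _) (hC01 _)) (hC01 _)))
  -- its mean
  set f₁ : ℤ → ℤ → ℝ := fun y₂ y₃ => m₁.L (fun x => C (α₁ + β₁ * x) *
        C (α₁ + β₁ * x - y₂) * C (α₁ + β₁ * x - y₃)) with hf₁
  have hf₁01 : ∀ y₂ y₃, 0 ≤ f₁ y₂ y₃ ∧ f₁ y₂ y₃ ≤ 1 := fun y₂ y₃ =>
    nb_L m₁ _ fun x => nb_mul (nb_mul (hC01 _) (hC01 _)) (hC01 _)
  set f₂ : ℤ → ℝ := fun y₃ => m₂.L (fun u => C (α₂ + β₂ * u) *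
      C (α₂ + β₂ * u - y₃) * f₁ (α₂ + β₂ * u) y₃) with hf₂
  have hf₂01 : ∀ y₃, 0 ≤ f₂ y₃ ∧ f₂ y₃ ≤ 1 := fun y₃ =>
    nb_L m₂ _ fun u => nb_mul (nb_mul (hC01 _) (hC01 _)) (hf₁01 _ _)
  set κ := m₃.L (fun v => C (α₃ + β₃ * v) * f₂ (α₃ + β₃ * v)) with hκ
  have hκ0 : 0 < κ := h
  have hmean : ∀ b, K * β₁ * β₂ * β₃ ∣ b → (m₃.prod (m₂.prod m₁)).L (F b) = κ := by
    intro b hb
    have hb1 : β₁ ∣ b := Dvd.dvd.trans ⟨K * β₂ * β₃, by ring⟩ hb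
    have hb2 : β₂ ∣ b := Dvd.dvd.trans ⟨K * β₁ * β₃, by ring⟩ hb
    have hb3 : β₃ ∣ b := Dvd.dvd.trans ⟨K * β₁ * β₂, by ring⟩ hb
    rw [Mn.prod_apply]
    have e1 : ∀ v u : ℤ, m₁.L (fun x => C (α₁ + β₁ * x - b) *
        C (α₁ + β₁ * x - (α₂ + β₂ * u)) * C (α₁ + β₁ * x - (α₃ + β₃ * v))) =
        f₁ (α₂ + β₂ * u - b) (α₃ + β₃ * v - b) := by
      intro v u
      have h1 := nb_shift m₁ i₁ α₁ β₁ b hb1 (fun y => C y * C (y + b - (α₂ + β₂ * u)) *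
        C (y + b - (α₃ + β₃ * v))) (fun y => nb_mul (nb_mul (hC01 _) (hC01 _)) (hC01 _))
      have h2 : (fun x => C (α₁ + β₁ * x - b) *
        C (α₁ + β₁ * x - (α₂ + β₂ * u)) * C (α₁ + β₁ * x - (α₃ + β₃ * v))) =
          (fun x => (fun y => C y * C (y + b - (α₂ + β₂ * u)) *
        C (y + b - (α₃ + β₃ * v))) (α₁ + β₁ * x - b)) := by
        funext x
        beta_reduce
        rw [sub_add_cancel]
      rw [h2, h1, hf₁]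
      beta_reduce
      congr 1
      funext x
      rw [show α₁ + β₁ * x + b - (α₂ + β₂ * u) = α₁ + β₁ * x - (α₂ + β₂ * u - b) by ring,
        show α₁ + β₁ * x + b - (α₃ + β₃ * v) = α₁ + β₁ * x - (α₃ + β₃ * v - b) by ring]
    have e2 : ∀ v : ℤ, m₂.L (fun u => C (α₂ + β₂ * u - b) * C (α₂ + β₂ * u - (α₃ + β₃ * v)) *
        f₁ (α₂ + β₂ * u - b) (α₃ + β₃ * v - b)) = f₂ (α₃ + β₃ * v - b) := by
      intro v
      have h1 := nb_shift m₂ i₂ α₂ β₂ b hb2 (fun y => C y * C (y + b - (α₃ + β₃ * v)) *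
        f₁ y (α₃ + β₃ * v - b)) (fun y => nb_mul (nb_mul (hC01 _) (hC01 _)) (hf₁01 _ _))
      have h2 : (fun u => C (α₂ + β₂ * u - b) * C (α₂ + β₂ * u - (α₃ + β₃ * v)) *
        f₁ (α₂ + β₂ * u - b) (α₃ + β₃ * v - b)) =
          (fun u => (fun y => C y * C (y + b - (α₃ + β₃ * v)) *
        f₁ y (α₃ + β₃ * v - b)) (α₂ + β₂ * u - b)) := by
        funext u
        beta_reduce
        rw [sub_add_cancel]
      rw [h2, h1, hf₂]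
      beta_reduce
      congr 1
      funext u
      rw [show α₂ + β₂ * u + b - (α₃ + β₃ * v) = α₂ + β₂ * u - (α₃ + β₃ * v - b) by ring]
    have e3 : (fun v : ℤ => (m₂.prod m₁).L (fun y => F b (v, y))) =
        fun v => (fun y => C y * f₂ y) (α₃ + β₃ * v - b) := by
      funext v
      rw [Mn.prod_apply]
      have h1 : (fun u : ℤ => m₁.L (fun x => F b (v, (u, x)))) = fun u =>
          C (α₃ + β₃ * v - b) * (C (α₂ + β₂ * u - b) * C (α₂ + β₂ * u - (α₃ + β₃ * v)) *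
            f₁ (α₂ + β₂ * u - b) (α₃ + β₃ * v - b)) := by
        funext u
        rw [← e1 v u, ← nb_smul, ← nb_smul]
      rw [h1, nb_smul, e2]
    rw [e3, nb_shift m₃ i₃ α₃ β₃ b hb3 (fun y => C y * f₂ y)
      (fun y => nb_mul (hC01 _) (hf₂01 _))]
  -- level 0
  have hN : 0 < K * β₁ * β₂ * β₃ := by positivity
  have hI : {b : ℤ | K * β₁ * β₂ * β₃ ∣ b}.Infinite := by
    refine Set.infinite_of_injective_forall_mem (f := fun n : ℤ => K * β₁ * β₂ * β₃ * n) ?_ ?_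
    · intro n n' e
      exact mul_left_cancel₀ hN.ne' e
    · intro n
      exact Dvd.intro n rfl
  obtain ⟨B₀, hB₀, hB₀k, hB₀p⟩ := many (m₃.prod (m₂.prod m₁)) _ hI F hF01 κ hκ0
    (fun b hb => (hmean b hb).ge) k
  set G : ℤ × (ℤ × ℤ) → ℝ := fun p => ∏ b ∈ B₀, F b p with hG
  have hG01 : ∀ p, 0 ≤ G p ∧ G p ≤ 1 := fun p => nb_prod _ _ fun b => hF01 b p
  -- level 3
  have hg3 : ∀ v : ℤ, 0 ≤ (m₂.prod m₁).L (fun y => G (v, y)) ∧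
      (m₂.prod m₁).L (fun y => G (v, y)) ≤ 1 := fun v => nb_L _ _ fun y => hG01 _
  have hp3 : 0 < m₃.L (fun v => (m₂.prod m₁).L (fun y => G (v, y))) := hB₀p
  obtain ⟨S₃, -, hS₃k, hS₃p⟩ := many (m₂.prod m₁) _ (nb_inf m₃ i₃ _ hg3 hp3)
    (fun v y => G (v, y)) (fun v y => hG01 _) _ (half_pos hp3) (fun v hv => hv) k
  -- level 2
  set G₂ : ℤ → ℤ → ℝ := fun u x => ∏ v ∈ S₃, G (v, (u, x)) with hG₂
  have hG₂01 : ∀ u x, 0 ≤ G₂ u x ∧ G₂ u x ≤ 1 := fun u x => nb_prod _ _ fun v => hG01 _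
  have hg2 : ∀ u : ℤ, 0 ≤ m₁.L (G₂ u) ∧ m₁.L (G₂ u) ≤ 1 := fun u => nb_L _ _ (hG₂01 u)
  have hp2 : 0 < m₂.L (fun u => m₁.L (G₂ u)) := hS₃p
  obtain ⟨S₂, -, hS₂k, hS₂p⟩ := many m₁ _ (nb_inf m₂ i₂ _ hg2 hp2)
    G₂ hG₂01 _ (half_pos hp2) (fun u hu => hu) k
  -- level 1
  set G₁ : ℤ → ℝ := fun x => ∏ u ∈ S₂, G₂ u x with hG₁
  have hG₁01 : ∀ x, 0 ≤ G₁ x ∧ G₁ x ≤ 1 := fun x => nb_prod _ _ fun u => hG₂01 u x
  have hp1 : 0 < m₁.L G₁ := hS₂p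
  obtain ⟨S₁, hS₁, hS₁k⟩ := (nb_inf m₁ i₁ _ hG₁01 hp1).exists_subset_card_eq k
  -- the values are nonzero
  have hne : ∀ x ∈ S₁, ∀ u ∈ S₂, ∀ v ∈ S₃, ∀ b ∈ B₀, F b (v, (u, x)) ≠ 0 := by
    intro x hx u hu v hv b hb h0
    have h1 : m₁.L G₁ / 2 ≤ G₁ x := hS₁ hx
    have h2 : G (v, (u, x)) = 0 := Finset.prod_eq_zero hb h0
    have h3 : G₂ u x = 0 := Finset.prod_eq_zero hv h2
    have h4 : G₁ x = 0 := Finset.prod_eq_zero hu h3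
    rw [h4] at h1
    linarith
  have hpos : ∀ s : Finset ℤ, s.card = k → ∃ y, y ∈ s := fun s hs =>
    Finset.card_pos.1 (by omega)
  obtain ⟨x₀, hx₀⟩ := hpos S₁ hS₁k
  obtain ⟨u₀, hu₀⟩ := hpos S₂ hS₂k
  obtain ⟨v₀, hv₀⟩ := hpos S₃ hS₃k
  obtain ⟨c₀, hc₀⟩ := hpos B₀ hB₀k
  have hfac : ∀ x ∈ S₁, ∀ u ∈ S₂, ∀ v ∈ S₃, ∀ b ∈ B₀,
      C (α₃ + β₃ * v - b) ≠ 0 ∧ C (α₂ + β₂ * u - b) ≠ 0 ∧ C (α₂ + β₂ * u - (α₃ + β₃ * v)) ≠ 0 ∧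
      C (α₁ + β₁ * x - b) ≠ 0 ∧ C (α₁ + β₁ * x - (α₂ + β₂ * u)) ≠ 0 ∧
      C (α₁ + β₁ * x - (α₃ + β₃ * v)) ≠ 0 := by
    intro x hx u hu v hv b hb
    have h1 : C (α₃ + β₃ * v - b) * (C (α₂ + β₂ * u - b) * C (α₂ + β₂ * u - (α₃ + β₃ * v)) *
      (C (α₁ + β₁ * x - b) * C (α₁ + β₁ * x - (α₂ + β₂ * u)) *
        C (α₁ + β₁ * x - (α₃ + β₃ * v)))) ≠ 0 := hne x hx u hu v hv b hb
    simp only [mul_ne_zero_iff] at h1
    tauto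
  have hinj : ∀ α β : ℤ, 0 < β → Function.Injective (fun x : ℤ => α + β * x) := by
    intro α β hβ x y e
    have h1 : β * x = β * y := by
      have h2 : α + β * x = α + β * y := e
      linarith
    exact mul_left_cancel₀ hβ.ne' h1
  refine ⟨![B₀, S₃.image (fun v => α₃ + β₃ * v), S₂.image (fun u => α₂ + β₂ * u),
    S₁.image (fun x => α₁ + β₁ * x)], ?_, ?_, ?_⟩
  · intro i
    fin_cases i
    · exact hB₀k
    · exact (Finset.card_image_of_injective _ (hinj α₃ β₃ hβ₃)).trans hS₃k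
    · exact (Finset.card_image_of_injective _ (hinj α₂ β₂ hβ₂)).trans hS₂k
    · exact (Finset.card_image_of_injective _ (hinj α₁ β₁ hβ₁)).trans hS₁k
  · have hdv : ∀ (α β : ℤ) (s : Finset ℤ), ∀ b ∈ s.image (fun x => α + β * x), β ∣ b - α := by
      intro α β s b hb
      obtain ⟨x, -, rfl⟩ := Finset.mem_image.1 hb
      exact ⟨x, by ring⟩
    exact ⟨fun b hb => hB₀ hb, hdv α₃ β₃ S₃, hdv α₂ β₂ S₂, hdv α₁ β₁ S₁⟩
  · have h01 : ∀ b ∈ B₀, ∀ b' ∈ S₃.image (fun v => α₃ + β₃ * v),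
        b ≠ b' ∧ (b - b').natAbs ∉ D := by
      intro b hb b' hb'
      obtain ⟨v, hv, rfl⟩ := Finset.mem_image.1 hb'
      exact nb_CI_ne (hfac x₀ hx₀ u₀ hu₀ v hv b hb).1
    have h02 : ∀ b ∈ B₀, ∀ b' ∈ S₂.image (fun u => α₂ + β₂ * u),
        b ≠ b' ∧ (b - b').natAbs ∉ D := by
      intro b hb b' hb'
      obtain ⟨u, hu, rfl⟩ := Finset.mem_image.1 hb'
      exact nb_CI_ne (hfac x₀ hx₀ u hu v₀ hv₀ b hb).2.1
    have h03 : ∀ b ∈ B₀, ∀ b' ∈ S₁.image (fun x => α₁ + β₁ * x),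
        b ≠ b' ∧ (b - b').natAbs ∉ D := by
      intro b hb b' hb'
      obtain ⟨x, hx, rfl⟩ := Finset.mem_image.1 hb'
      exact nb_CI_ne (hfac x hx u₀ hu₀ v₀ hv₀ b hb).2.2.2.1
    have h12 : ∀ b ∈ S₃.image (fun v => α₃ + β₃ * v), ∀ b' ∈ S₂.image (fun u => α₂ + β₂ * u),
        b ≠ b' ∧ (b - b').natAbs ∉ D := by
      intro b hb b' hb'
      obtain ⟨v, hv, rfl⟩ := Finset.mem_image.1 hb
      obtain ⟨u, hu, rfl⟩ := Finset.mem_image.1 hb'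
      exact nb_CI_ne (hfac x₀ hx₀ u hu v hv c₀ hc₀).2.2.1
    have h13 : ∀ b ∈ S₃.image (fun v => α₃ + β₃ * v), ∀ b' ∈ S₁.image (fun x => α₁ + β₁ * x),
        b ≠ b' ∧ (b - b').natAbs ∉ D := by
      intro b hb b' hb'
      obtain ⟨v, hv, rfl⟩ := Finset.mem_image.1 hb
      obtain ⟨x, hx, rfl⟩ := Finset.mem_image.1 hb'
      exact nb_CI_ne (hfac x hx u₀ hu₀ v hv c₀ hc₀).2.2.2.2.2
    have h23 : ∀ b ∈ S₂.image (fun u => α₂ + β₂ * u), ∀ b' ∈ S₁.image (fun x => α₁ + β₁ * x),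
        b ≠ b' ∧ (b - b').natAbs ∉ D := by
      intro b hb b' hb'
      obtain ⟨u, hu, rfl⟩ := Finset.mem_image.1 hb
      obtain ⟨x, hx, rfl⟩ := Finset.mem_image.1 hb'
      exact nb_CI_ne (hfac x hx u hu v₀ hv₀ c₀ hc₀).2.2.2.2.1
    intro i j hij
    fin_cases i <;> fin_cases j <;>
      first
        | exact absurd hij (by decide)
        | exact h01
        | exact h02
        | exact h03
        | exact h12
        | exact h13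
        | exact h23


end Pool.Agent.HOM
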